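import Pool.Agent.W647.KG6

/-!
# Chern characters of all higher K-groups of group-graded rings at elements of finite order

Let `W` be a free `G`-CW-complex. If `W` is connected, `π = π₁(G \ W)` is an extension of `G` by
`π₁(W)`, the group ring `ℤ[π]` is graded by `G`, and linearization maps `π_n(A(G \ W))` to
`K_n(ℤ[π])`, hence to the homology `H_n(GL(ℤ[π]); ℤ)`. More generally let `S` be any ring graded by
`G`. The `n`-cycles of the groups `GL_d(S)` have, for each conjugacy class of elements `g ≠ 1` of
finite order of `G`, a component at `g` of the integral Chern character, which pairs with the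
cocycles of degree `n + 2 k` of the quotients `C(g) / ⟨g⟩` of the centralizers, with arbitrary
coefficients. We prove that these numbers are divisible by all `N` prime to the torsion of `G`, for
all `n ≥ 1` and `k ≥ 1`.
-/

set_option autoImplicit false

namespace Pool.Agent.Results.MP_59dd5b_al.HigherTwistedChern

open Pool.Agent.W647.HX1 Pool.Agent.W647.KN Pool.Agent.W647.KG

universe u1 u2 u3

/-- Let `S` be a ring graded by a group `G`, with homogeneous components `𝒮 h`, `A` and `M` abelian
groups and `T : S × A → M` biadditive with `T (x y, a) = T (y x, a)`. Let `g ≠ 1` be an element of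
finite order of `G`, and for each conjugate `y` of `g` let `t y` be an element with
`t y * y * (t y)⁻¹ = g`. Let `z` be an integral cycle of degree `n = m + 1` of the group `GL_d(S)`,
in the complex of inhomogeneous chains, `k ≥ 1`, and `c` an alternating `A`-valued cocycle of degree
`n + 2 k` on `G` which is invariant under left multiplication by the centralizer `C(g)`, and under
left multiplication by `g` in each single variable. For a sequence `v = (v₁, …, vₙ)` of invertible
matrices let `h = hh v = ((v₁ ⋯ vₙ)⁻¹, v₁, …, vₙ)`, and let `chg` be the sum over all arrays `s` of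
elements of `G` with `2 k + 1` rows and `n + 1` columns, whose product `y`, row by row, is conjugate
to `g`, of `T (tr (∏ h_p [s_{b,p}]), cvt c (t y) s)`: the product is taken row by row, `h_p [s]` is
the homogeneous component of degree `s` of the matrix `h_p`, and `cvt c (t y) s` is the value of the
cochain `c` on the array of the partial products of `s`, multiplied by `t y` from the left, through
shuffles of the rows and the columns. Let `τ` be the sum of these numbers, with the coefficients of
`z`. Let `N ≥ 1` and assume that `G` has no element of order `p` for the primes `p ∣ N`. Then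
`(2 k + 2) ((2 k)! / k!) τ` is divisible by `N` in `M`, and `τ = 0` if `N M = 0` and `N` is prime to
`(2 k + 2) (2 k)! / k!`. -/
theorem result (G : Type u1) [Group G] [DecidableEq G] (S : Type) [Ring S]
    (𝒮 : G → AddSubgroup S) [DirectSum.Decomposition 𝒮] (h1 : (1 : S) ∈ 𝒮 1)
    (hmul : ∀ g h : G, ∀ x ∈ 𝒮 g, ∀ y ∈ 𝒮 h, x * y ∈ 𝒮 (g * h))
    (A : Type u2) [AddCommGroup A] (M : Type u3) [AddCommGroup M]
    (T : S →+ A →+ M) (hT : ∀ x y, T (x * y) = T (y * x))
    (g : G) (_hg1 : g ≠ 1) (hg : IsOfFinOrder g) (t : G → G)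
    (ht : ∀ y, IsConj y g → t y * y * (t y)⁻¹ = g)
    (d : Type) [Fintype d] [DecidableEq d] (m k : ℕ) (hk : 1 ≤ k)
    (z : (Fin (m + 1) → (Matrix d d S)ˣ) →₀ ℤ)
    (hz : (groupHomology.inhomogeneousChains.d (Rep.trivial ℤ (Matrix d d S)ˣ ℤ) m).hom z = 0)
    (c : (Fin (m + 1 + 2 * k + 1) → G) → A) (hc : IsClassCoc g c) (N : ℕ) (hN : N ≠ 0)
    (hnt : ∀ p : ℕ, p.Prime → p ∣ N → ∀ y : G, orderOf y ≠ p) (τ : M)
    (hτ : τ = z.sum fun v a => a • chg T g t (2 * k + 1) c fun p =>
      gc 𝒮 ((hh v p : (Matrix d d S)ˣ) : Matrix d d S)) :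
    (∃ y : M, ((2 * k + 2) * (2 * k).descFactorial k) • τ = N • y) ∧
    (N.Coprime ((2 * k + 2) * (2 * k).descFactorial k) → (∀ y : M, N • y = 0) → τ = 0) := by
  set C := (2 * k + 2) * (2 * k).descFactorial k with hC
  have h0 : ∃ y : M, C • τ = N • y := by
    rw [hτ]
    exact graded_tw 𝒮 h1 hmul T hT hg ht (by omega) hc z hz N hN hnt
  refine ⟨h0, fun hcop hM => ?_⟩
  obtain ⟨y, hy⟩ := h0
  rw [hM] at hy
  have h3 := Nat.gcd_eq_gcd_ab N C
  rw [hcop] at h3
  have h4 : ((N : ℤ) * (Nat.gcdA N C) + ((C : ℕ) : ℤ) * (Nat.gcdB N C)) • τ = τ := by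
    rw [← h3, Nat.cast_one, one_smul]
  rw [add_smul, mul_smul, natCast_zsmul, hM, zero_add, mul_smul, natCast_zsmul, smul_comm, hy,
    smul_zero] at h4
  exact h4.symm

end Pool.Agent.Results.MP_59dd5b_al.HigherTwistedChern
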